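import Pool.Agent.Helper123.SM.RealA

set_option autoImplicit false

/-!
# Long prime-free intervals around `N, θ₁ N + β₁, …, θ_r N + β_r` for ALL real vectors `θ`, `β`

Let `θ₁, …, θ_r` and `β₁, …, β_r` be arbitrary real numbers, which may depend on `X`, with
`exp (-√(log X)) ≤ |θ_i| ≤ exp ((log X)^D)` and `|β_i| ≤ exp ((log X)^D)`, and let `r` be at most `(log X)^(1/4) - 1`. In every
interval `(M, M + X]` we find an integer `N` such that no prime lies within `c log X log log X / (r + 1)²` of any of
the `r + 1` numbers `N, θ₁ N + β₁, …, θ_r N + β_r`. For bounded `r` this is longer than the longest published gaps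
`log X log₂ X log₄ X / log₃ X`. The starting file `MP_f9960f_nt.SeveralRealMultiples` has the length
`c log X (log₂ X)² log₄ X / (log₃ X)²`, but only under a Diophantine condition on `1, θ₁, …, θ_r`, and for bounded
`r`; the result here is for ALL vectors, for instance rational ones with arbitrary numerators and denominators, or
Liouville numbers, and the neighbourhoods may overlap or be translates of each other in an arbitrary way.

Proof. Dirichlet's theorem gives integers `w₀ ≤ q^r`, `w_i` with `|θ_i w₀ - w_i| < 1 / q`; we take `N = M + n w₀` with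
`n ≤ q`, so that `θ_i N + β_i` is within `2` of `n w_i + γ_i` with an integer `γ_i` which does not depend on `n`. The
numbers `w_i` and `γ_i` are arbitrary, for instance the `w_i` may be divisible by all small primes. The prime-free
intervals around the values of the forms `w_i n + γ_i` come from a new form (`Pool.Agent.Helper123.SM.windowsA`) of the
sieve of the starting files (covering theorem of helper256 and helper361): for ALL finite sets of pairs `(α, β)` with
`1 ≤ α ≤ exp ((log X)^D)`, `|β| ≤ exp ((log X)^D)` and windows `K(α, β) ≥ √(log X)` with `∑ K(α, β) ≤ c log X log log X`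
there is `n` in every interval of length `X` without primes within `K(α, β)` of `α n + β` for all pairs. There is no loss
from the small prime factors of `α`, because `α n + β + j` is composite when `β + j` has a common factor with `α`
(Selberg's sieve for arbitrary sets of primes, from the starting files).
-/

namespace Pool.Agent.Results.MP_c853c5_nt.EveryRealVector

/-- No prime is at distance at most `d` from `x`. -/
def PrimeFreeAround (x d : ℝ) : Prop := ∀ p : ℕ, p.Prime → d < |(p : ℝ) - x|

/-- For every `D` there are `c > 0` and `X₀` such that for all `X ≥ X₀`, all `r` with `(r + 1)⁴ ≤ log X`, ALL real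
numbers `θ₁, …, θ_r` with `exp (-√(log X)) ≤ |θ_i| ≤ exp ((log X)^D)`, ALL real numbers `β₁, …, β_r` with
`|β_i| ≤ exp ((log X)^D)` and all integers `M` with `|M| ≤ exp ((log X)^D)` there is an integer `N`, `M < N ≤ M + X`,
without primes within `c log X log log X / (r + 1)²` of `N` and of `θ_i N + β_i`, `1 ≤ i ≤ r`. -/
theorem result (D : ℕ) : ∃ c : ℝ, 0 < c ∧ ∃ X₀ : ℝ, ∀ X : ℝ, X₀ ≤ X → ∀ r : ℕ,
    ((r : ℝ) + 1) ^ 4 ≤ Real.log X → ∀ θ β : Fin r → ℝ,
    (∀ i, Real.exp (-Real.sqrt (Real.log X)) ≤ |θ i| ∧
      |θ i| ≤ Real.exp ((Real.log X) ^ D)) →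
    (∀ i, |β i| ≤ Real.exp ((Real.log X) ^ D)) →
    ∀ M : ℤ, |(M : ℝ)| ≤ Real.exp ((Real.log X) ^ D) →
    ∃ N : ℤ, M < N ∧ (N : ℝ) ≤ M + X ∧
      PrimeFreeAround N (c * (Real.log X * Real.log (Real.log X)) / (r + 1) ^ 2) ∧
      ∀ i, PrimeFreeAround (θ i * N + β i)
        (c * (Real.log X * Real.log (Real.log X)) / (r + 1) ^ 2) :=
  Pool.Agent.Helper123.SM.affineX D

end Pool.Agent.Results.MP_c853c5_nt.EveryRealVector
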