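import Mathlib
import Pool.Agent.helper391_OM.Main

set_option autoImplicit false

/-!
# Integers with almost the maximal number of prime factors in the middle of record gaps

The number `ω(n)` of distinct prime factors of `n` is at most `(1 + o(1)) log n / log log n`. Let
`f(x) = log x (log₂ x)² log₄ x / (log₃ x)²` (iterated natural logarithms), the order of the largest gaps between
consecutive primes known from the starting files (`MP_3bc45c_nt.RecordGaps`). We show that for
`0 < δ < θ ≤ 1` every interval `(M, M + M^θ]` with a large `M` contains an integer `n` with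
`ω(n) ≥ (θ - δ) log M / log log M` and without primes within `κ f(M)`. With `θ = 1` these integers have almost
the maximal possible number of prime factors, and almost the maximal possible number of divisors
`≥ 2^ω(n) = n^((1 - δ) log 2 / log log n)`.

Proof. Chebyshev's bounds give a product `d` of consecutive primes in `(Y, 8 Y]`, `Y = (θ - δ/2) log M`, with
`Y - log 8Y ≤ log d ≤ Y`. It has at least `(Y - log 8Y) / log 8Y` prime factors and `∑ 1/p ≤ 2 / log Y` over them, so that
the record sieve of the starting files in progressions with large differences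
(`MP_3bc45c_nt.RecordGapsAtPrescribedPlaces`) applies to the multiples of `d`.
-/

namespace Pool.Agent.Results.MP_c853c5_nt.ManyPrimeFactorsInRecordGaps

/-- The record scale `f(x) = log x (log₂ x)² log₄ x / (log₃ x)²` (iterated natural logarithms). -/
noncomputable def f (x : ℝ) : ℝ :=
  Real.log x * (Real.log (Real.log x)) ^ 2 * Real.log (Real.log (Real.log (Real.log x))) /
    (Real.log (Real.log (Real.log x))) ^ 2

/-- For `0 < δ < θ ≤ 1` there are `κ > 0` and `M₀` such that for all `M ≥ M₀` there is an integer `n` with
`M < n ≤ M + M^θ`, with at least `(θ - δ) log M / log log M` distinct prime factors, and with `|p - n| > κ f(M)` for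
every prime `p`. -/
theorem result (θ δ : ℝ) (hδ : 0 < δ) (hδθ : δ < θ) (hθ : θ ≤ 1) :
    ∃ κ : ℝ, 0 < κ ∧ ∃ M₀ : ℕ, ∀ M : ℕ, M₀ ≤ M → ∃ n : ℕ, M < n ∧ (n : ℝ) ≤ M + (M : ℝ) ^ θ ∧
      (θ - δ) * Real.log M / Real.log (Real.log M) ≤ n.primeFactors.card ∧
      ∀ p : ℕ, p.Prime → κ * f M < |(p : ℝ) - n| :=
  Pool.Agent.helper391_OM.main θ δ hδ hδθ hθ

end Pool.Agent.Results.MP_c853c5_nt.ManyPrimeFactorsInRecordGaps
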