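import Pool.Agent.helper306_pp.Cr6

/-!
# Gaps between randomly moved primes

Every prime `p` is moved to the right by a random amount `U p`, uniform on `{0, 1, …, w p - 1}`; the amounts
are independent. If `w p` is large compared with `(log p) ^ 2` and small compared with `p`, then almost surely
there are gaps `≥ (1 - ε) (log X) ^ 2` between consecutive moved primes in `(X, (1 + ε) X]` for all large `X`.
If moreover `w` varies slowly, then all large gaps are `O ((log q) ^ 2)` when `w p ≥ p ^ (1 - δ)`, and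
`≤ (1 + ε) (log q) ^ 2` when `w p ≥ p / (log p) ^ A`.
-/

set_option autoImplicit false

namespace Pool.Agent.Results.MP_c853c5_nt.RandomlyMovedPrimes

open MeasureTheory ProbabilityTheory Filter Topology

/-- the set of the moved primes `p + u p` -/
def Moved (u : ℕ → ℕ) : Set ℕ := {m | ∃ p : ℕ, p.Prime ∧ p + u p = m}

/-- `q < q'` are consecutive elements of `R` -/
def Consecutive (R : Set ℕ) (q q' : ℕ) : Prop :=
  q ∈ R ∧ q' ∈ R ∧ q < q' ∧ ∀ m, q < m → m < q' → m ∉ R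

/-- `w` varies slowly: `w p` is close to `w y`, relatively, for `y - 2 w y ≤ p ≤ y`, `y` large -/
def Slow (w : ℕ → ℕ) : Prop := ∀ κ : ℝ, 0 < κ → ∀ᶠ y : ℕ in atTop, ∀ p : ℕ, p ≤ y →
  y ≤ p + 2 * w y → |(w p : ℝ) - w y| ≤ κ * w y

theorem result : ∃ δ C : ℝ, 0 < δ ∧ δ < 1 ∧ 0 < C ∧
    ∀ w : ℕ → ℕ, (∀ p : ℕ, p.Prime → 0 < w p) →
      Tendsto (fun p : ℕ => (w p : ℝ) / Real.log p ^ 2) atTop atTop →
      Tendsto (fun p : ℕ => (w p : ℝ) / p) atTop (𝓝 0) →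
    ∀ (Ω : Type*) (_ : MeasurableSpace Ω) (P : Measure Ω) (_ : IsProbabilityMeasure P)
      (U : ℕ → Ω → ℕ), (∀ p, Measurable (U p)) → iIndepFun U P →
      (∀ p : ℕ, p.Prime → ∀ j < w p, P {ω | U p ω = j} = (w p : ENNReal)⁻¹) →
      ∀ᵐ ω ∂P,
        (∀ ε : ℝ, 0 < ε → ∀ᶠ X : ℕ in atTop, ∃ q q', Consecutive (Moved (fun p => U p ω)) q q' ∧
          X < q ∧ (q' : ℝ) ≤ (1 + ε) * X ∧ (1 - ε) * Real.log X ^ 2 ≤ (q' : ℝ) - q) ∧
        (Slow w → (∃ A : ℕ, ∀ᶠ p : ℕ in atTop, (p : ℝ) / Real.log p ^ A ≤ w p) →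
          ∀ ε : ℝ, 0 < ε → ∀ᶠ q : ℕ in atTop, ∀ q', Consecutive (Moved (fun p => U p ω)) q q' →
            (q' : ℝ) - q ≤ (1 + ε) * Real.log q ^ 2) ∧
        (Slow w → (∀ᶠ p : ℕ in atTop, (p : ℝ) ^ (1 - δ) ≤ w p) →
          ∀ᶠ q : ℕ in atTop, ∀ q', Consecutive (Moved (fun p => U p ω)) q q' →
            (q' : ℝ) - q ≤ C * Real.log q ^ 2) :=
  Pool.Agent.helper306_pp.moved_gaps

end Pool.Agent.Results.MP_c853c5_nt.RandomlyMovedPrimes
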